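import Pool.Agent.Q44.Twists
import Pool.Agent.Results.MP_896029_ag.LiftableSectionsOfTwists

/-!
# Liftable sections of the quadratic twists by most convergents of almost every real number

Let `N ≥ 6` be even and let `e_1, …, e_N` be different integers which satisfy the condition `CrossRatio`, such that for every
`i` four of the other points give an elliptic curve of rank zero (`FourPoints`). For squarefree `d` let `C_d` be the curve
`d y² = ∏ (x - e_i)`, of genus `(N - 2) / 2 ≥ 2`. The statement `LiftableSectionsAreValuative e d`: every section of
`π₁(U) → G_ℚ`, `U` the curve `C_d` or a curve with a nonconstant map to `C_d`, which lifts to a section of the absolute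
Galois group of the function field, geometric over the completions at the finite places, arises from a valuation with
residue field `ℚ`. For almost every real number `α`, all integers `(u, v) ≠ (0, 0)`, all `ε > 0` and all large `K` this
holds for `d = ± (u p + v q)`, if it is squarefree, for all convergents `p / q` of the continued fraction of `α` with
`q < 2 ^ K`, with at most `K ^ (4/5 + ε)` exceptions. The same for the linear forms in the denominators and the numerators
of the simultaneous approximations of Dirichlet's quality of almost every point of `ℝ ^ d`, for most dyadic ranges of the
denominators.

The bound for the number of exceptional twists is from the starting file `LiftableSectionsOfTwists`, with the definitions.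
-/

set_option autoImplicit false

namespace Pool.Agent.Results.MP_896029_ag.MostApproximations

open Pool.Agent.Q44.CF Pool.Agent.Results.MP_896029_ag.LiftableSectionsOfTwists

/-- **Theorem.** Let the `N ≥ 6` branch points `e_i`, `N` even, be different and satisfy `CrossRatio` and `FourPoints`. Then
`LiftableSectionsAreValuative e d` holds for all squarefree `d = ± n`, for most of the integers `n` given by the
approximations of Dirichlet's quality of almost all real numbers and of almost all points of `ℝ ^ d`. -/
theorem result (K : Type) [Fintype K] (e : K → ℤ) (he : Function.Injective e)
    (hev : Even (Fintype.card K)) (hK : 6 ≤ Fintype.card K) (hCR : CrossRatio e) (hE : FourPoints e) :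
    AtMostApproximations (1 / 5) (fun n => ∀ d : ℤ, d.natAbs = n →
      ¬ (Squarefree d ∧ ¬ LiftableSectionsAreValuative e d)) := by
  obtain ⟨C, hC⟩ := LiftableSectionsOfTwists.result K e he hev hK hCR hE
  exact atMost_twists (by norm_num) (by norm_num) hC

end Pool.Agent.Results.MP_896029_ag.MostApproximations
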