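import Mathlib
import Pool.Agent.Q284.SC.Desc
import Pool.Agent.Q8.QH.Qu
import Pool.Agent.W307.RT.Tors

/-!
# Locally geometric sections for the curves over the 2-isogeny quartics of almost all elliptic curves
with full rational 2-torsion, by height

All elliptic curves `E` over `ℚ` with full rational 2-torsion, ordered by the naive height. Let
`y² = x (x - A) (x - B)` be obtained from the reduced equation `y² = x³ + a x + b` of `E` by moving
one of its points of order two to `(0, 0)` (six pairs `(A, B)` for each `E`). For a squarefree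
`b ∣ A B` let `C_b` be the curve of genus one `N² = b M⁴ - (A + B) M² e² + (A B / b) e⁴`. For 100 % of
the curves `E` of height at most `H` the number of the `C_b` with points everywhere locally is
`(log H) ^ ((3 / 2) log 2 + o(1))`. We prove: outside of a proportion `ε` of the curves `E` all but at
most `R = R(ε)` of these `C_b` are such that no smooth curve `U` over `ℚ` with a map to `C_b` has a
section of `π₁(U) → G_ℚ` which is given over `ℝ` and over all `ℚ_p` by points or cusps of `U` (a
locally geometric section, or Selmer section), and the number of the others is bounded in mean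
square. So for the smooth projective curves `X` of genus at least two with a map to one of the former
`C_b` there is no locally geometric section at all, although `C_b` has points everywhere locally.

The fundamental group is described through valuations.  Let `U` be a smooth geometrically connected
curve over `k` with function field `F`, let `Ω` be an algebraic closure of `F`, and let `F_U` be the
maximal extension of `F` inside `Ω` which is unramified over the closed points of `U`, that is, over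
their local rings, which are valuation rings of `F`.  Then `π₁(U) = Gal(F_U/F)`, and the map
`π₁(U) → G_k` is the restriction of automorphisms to the algebraic closure of `k` in `Ω`.

Proof. Let `R` be the field of the elements of `F_U` fixed by a locally geometric section `s`. The
places which give `s` over `ℝ` and `ℚ_p` induce places of `R` with values in `ℝ` and `ℚ_p`. Let `Q` be
the image in `E` of the point of `C_b` over `R`. The functions `x(Q)`, `x(Q) - A` have square roots in
`F_U` up to constants, so they are squares in `R` up to rational numbers `b`, `d`. The values of `Q` at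
the places are local points with the same classes, so the double covering
`D_d : b M² - A e² = d x²`, `b M² - B e² = b d y²` of `C_b` has points everywhere locally. The number of
the `C_b` with such a covering is treated in `Results/MP_d37f77_nt/QuarticsByHeight.lean` (helper8).
-/

set_option autoImplicit false

namespace Pool.Agent.Results.MP_896029_ag.SectionsByHeight

open Finset Filter

/-- the curve `y² = x³ + A x + B` over `ℚ` -/
def E (A B : ℤ) : WeierstrassCurve ℚ := ⟨0, 0, 0, (A : ℚ), (B : ℚ)⟩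

open Classical in
/-- The pairs `(A, B)` of integers such that `4 A³ + 27 B² ≠ 0`, there is no prime `p` with
`p⁴ ∣ A` and `p⁶ ∣ B`, the height `max (4 |A|³) (27 B²)` is at most `H`, and `Z/2 x Z/2` embeds in
the group of the rational points of `y² = x³ + A x + B`. (The bounds `|A|, |B| ≤ H` follow from the
bound of the height. Every elliptic curve over `ℚ` is isomorphic to `E A B` for exactly one pair with
the first two properties.) -/
noncomputable def Fam (H : ℕ) : Finset (ℤ × ℤ) :=
  ((Icc (-(H : ℤ)) H) ×ˢ (Icc (-(H : ℤ)) H)).filter (fun c : ℤ × ℤ =>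
    4 * c.1 ^ 3 + 27 * c.2 ^ 2 ≠ 0 ∧ 4 * |c.1| ^ 3 ≤ H ∧ 27 * c.2 ^ 2 ≤ H ∧
    (∀ p : ℕ, p.Prime → ¬ ((p : ℤ) ^ 4 ∣ c.1 ∧ (p : ℤ) ^ 6 ∣ c.2)) ∧
    ∃ f : ZMod 2 × ZMod 2 →+ (E c.1 c.2).toAffine.Point, Function.Injective f)

/-- `x³ + c.1 x + c.2 = (x - e) (x - e - A) (x - e - B)` for some `e`: the translation by `e` turns
the curve `E c.1 c.2` into `y² = x (x - A) (x - B)`, and its point `(e, 0)` into `(0, 0)` -/
def Roots (c : ℤ × ℤ) (A B : ℤ) : Prop :=
  ∃ e : ℤ, ∀ x : ℤ, x ^ 3 + c.1 * x + c.2 = (x - e) * (x - (e + A)) * (x - (e + B))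

/-- the curve `C : N² = b₁ M⁴ - (A + B) M² e² + (A B / b₁) e⁴` has a point over `K`, with
`(M, e) ≠ (0, 0)` -/
def Solvable (K : Type) [Field K] (A B b₁ : ℤ) : Prop := ∃ N M e : K, (M ≠ 0 ∨ e ≠ 0) ∧
  N ^ 2 = (b₁ : K) * M ^ 4 + ((-(A + B) : ℤ) : K) * M ^ 2 * e ^ 2 +
    ((A * B / b₁ : ℤ) : K) * e ^ 4

/-- the squarefree `b₁ ∣ A B` for which `C` has points everywhere locally -/
def ELS (A B : ℤ) : Set ℤ := {b₁ | Squarefree b₁ ∧ b₁ ∣ A * B ∧ Solvable ℝ A B b₁ ∧
  ∀ (p : ℕ) [Fact p.Prime], Solvable ℚ_[p] A B b₁}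

/-- the double covering `D_d` of `C` has a point over `K` -/
def Covering (K : Type) [Field K] (A B b₁ d : ℤ) : Prop := ∃ M e x y : K, (M ≠ 0 ∨ e ≠ 0) ∧
  (b₁ : K) * M ^ 2 - (A : K) * e ^ 2 = (d : K) * x ^ 2 ∧
  (b₁ : K) * M ^ 2 - (B : K) * e ^ 2 = (b₁ : K) * d * y ^ 2

/-- the `b₁` in `ELS A B` for which some covering `D_d` has points everywhere locally -/
def ELSCovered (A B : ℤ) : Set ℤ := {b₁ | b₁ ∈ ELS A B ∧ ∃ d : ℤ, Squarefree d ∧
  Covering ℝ A B b₁ d ∧ ∀ (p : ℕ) [Fact p.Prime], Covering ℚ_[p] A B b₁ d}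

section sections

variable (k F Ω : Type) [Field k] [Field F] [Field Ω] [Algebra F Ω] [Algebra k Ω]

/-- The inertia group of the valuation ring `V` of `Ω`, as a subgroup of `Gal(Ω/F)`: the
automorphisms of `Ω` over `F` that map `V` onto itself and act as the identity on its residue
field. -/
noncomputable def inertia (V : ValuationSubring Ω) : Subgroup (Ω ≃ₐ[F] Ω) :=
  (V.inertiaSubgroup F).map (V.decompositionSubgroup F).subtype

/-- `F_U`, for a set `U` of valuation rings of `F`: the elements of `Ω` fixed by the inertia groups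
of all valuation rings `V` of `Ω` with `V ∩ F ∈ U`.  If `Ω` is an algebraic closure of a field `F`
of characteristic zero, this is the maximal extension of `F` in `Ω` unramified over `U`. -/
noncomputable def unramified (U : Set (ValuationSubring F)) : IntermediateField F Ω :=
  ⨅ V : {V : ValuationSubring Ω // V.comap (algebraMap F Ω) ∈ U},
    IntermediateField.fixedField (inertia F Ω V.1)

/-- The map `τ : M → M` acts as `σ : K → K` on the elements that the fields `K` and `M` have in
common when they are regarded as subfields of `Ω` through `i` and `j`. -/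
def ActsAs {K M Ω : Type} [Field K] [Field M] [Field Ω] (i : K →+* Ω) (j : M →+* Ω) (σ : K → K)
    (τ : M → M) : Prop :=
  ∀ c z, j z = i c → j (τ z) = i (σ c)

/-- Let `k ⊆ K ⊆ Ω` and `F ⊆ M ⊆ Ω` be fields.  A splitting of `Gal(M/F) → Gal(K/k)`: a continuous
homomorphism `s` from `Gal(K/k)` to `Gal(M/F)` such that `s(σ)` acts as `σ` on the elements of
`K ∩ M`. -/
structure Splitting (K M : Type) [Field K] [Field M] [Algebra k K] [Algebra F M] [Algebra K Ω]
    [Algebra M Ω] where
  /-- the homomorphism `Gal(K/k) → Gal(M/F)` -/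
  toHom : (K ≃ₐ[k] K) →* (M ≃ₐ[F] M)
  cont : Continuous toHom
  compat : ∀ σ : K ≃ₐ[k] K, ActsAs (algebraMap K Ω) (algebraMap M Ω) σ (toHom σ)

/-- The sections of `π₁(U) = Gal(F_U/F) → G_k`: the continuous homomorphisms `s` from
`G_k = Gal(k̄/k)` to `Gal(F_U/F)`, where `k̄` is the algebraic closure of `k` in `Ω`, such that
`s(σ)` acts as `σ` on the elements of `k̄`. -/
def GaloisSection (U : Set (ValuationSubring F)) : Type :=
  Splitting k F Ω (algebraicClosure k Ω) (unramified F Ω U)

end sections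

/-- A place of the field `M` with values in the field `C`: a valuation ring with an embedding of its
residue field in `C`, given as a homomorphism `ρ` on the valuation ring whose kernel is the maximal
ideal. -/
structure Place (M C : Type) [Field M] [Field C] where
  /-- the valuation ring -/
  V : ValuationSubring M
  /-- the residue map -/
  ρ : V →+* C
  unit : ∀ x : V, ρ x ≠ 0 → (x : M)⁻¹ ∈ V

/-- The place `p` of `M` turns the map `σ : M → M` into `τ : C → C`. -/
def Turns {M C : Type} [Field M] [Field C] (p : Place M C) (σ : M → M) (τ : C → C) : Prop :=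
  ∀ x (hx : x ∈ p.V), ∃ h' : σ x ∈ p.V, p.ρ ⟨σ x, h'⟩ = τ (p.ρ ⟨x, hx⟩)

/-- The splitting `s` is given over the field `L` with algebraic closure `C` by the place `p` of `M`
with values in `C` (that is, for `M = F_U`, by a point of `U` or a cusp over `L`): for all
`τ ∈ Gal(C/L)` there is `σ` such that `p` turns the action of `s(σ)` into the one of `τ`. (Such a `σ`
is the restriction of `τ` to `ℚ̄ ⊆ F_U`, embedded in `C` by `p`.) -/
def GivenBy {k F Ω K M : Type} [Field k] [Field F] [Field Ω] [Field K] [Field M] [Algebra k K]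
    [Algebra F M] [Algebra K Ω] [Algebra M Ω] (s : Splitting k F Ω K M) (L : Type) {C : Type}
    [Field L] [Field C] [Algebra L C] (p : Place M C) : Prop :=
  ∀ τ : C ≃ₐ[L] C, ∃ σ, Turns p (s.toHom σ) τ

/-- The splitting is locally geometric: it is given over `ℝ` and over all `ℚ_q` by places. -/
def LocallyGeometric {k F Ω K M : Type} [Field k] [Field F] [Field Ω] [Field K] [Field M]
    [Algebra k K] [Algebra F M] [Algebra K Ω] [Algebra M Ω] (s : Splitting k F Ω K M) : Prop :=
  (∃ p : Place M (AlgebraicClosure ℝ), GivenBy s ℝ p) ∧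
    ∀ (q : ℕ) [Fact q.Prime], ∃ p : Place M (AlgebraicClosure ℚ_[q]), GivenBy s ℚ_[q] p

/-- No section of `π₁(U) → G_k` is locally geometric. -/
def NoLocallyGeometricSection (k F Ω : Type) [Field k] [Field F] [Field Ω] [Algebra F Ω]
    [Algebra k Ω] (U : Set (ValuationSubring F)) : Prop :=
  ∀ s : GaloisSection k F Ω U, ¬ LocallyGeometric s

/-- No smooth curve over `C` has a locally geometric section: for all fields `F` over `ℚ` such that
`C` has a point over `F` and all sets `U` of valuation rings of `F` over `ℚ` no section of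
`π₁(U) → G_ℚ` is locally geometric. -/
def NoSelmerSection (A B b₁ : ℤ) : Prop :=
  ∀ (F Ω : Type) [Field F] [Field Ω] [Algebra ℚ F] [Algebra F Ω] [Algebra ℚ Ω]
    [IsScalarTower ℚ F Ω] [IsAlgClosure F Ω] (U : Set (ValuationSubring F)),
    (∀ O ∈ U, ∀ a : ℚ, algebraMap ℚ F a ∈ O) → Solvable F A B b₁ →
    NoLocallyGeometricSection ℚ F Ω U

/-- the `b₁` in `ELS A B` for which some curve over `C` has a locally geometric section -/
def Sectioned (A B : ℤ) : Set ℤ := {b₁ | b₁ ∈ ELS A B ∧ ¬ NoSelmerSection A B b₁}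

lemma Fam_eq (H : ℕ) : Fam H = Pool.Agent.W307.RT.Cv 2 H := by
  classical
  unfold Fam Pool.Agent.W307.RT.Cv
  apply filter_congr
  intro c _
  have h : Pool.Agent.W307.RT.HasT 2 (Pool.Agent.W307.RT.Sh c.1 c.2) ↔
      ∃ f : ZMod 2 × ZMod 2 →+ (E c.1 c.2).toAffine.Point, Function.Injective f :=
    Pool.Agent.W307.RT.tors_iff
  rw [h]

lemma none_of {k F Ω : Type} [Field k] [Field F] [Field Ω] [Algebra F Ω] [Algebra k Ω]
    {U : Set (ValuationSubring F)}
    (h : ∀ G : Pool.Agent.W620.SC.GSection k F Ω U, ¬ Pool.Agent.Q284.SC.LocGeo G) :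
    NoLocallyGeometricSection k F Ω U := by
  rintro s ⟨⟨p, hp⟩, h2⟩
  refine h ⟨s.toHom, s.cont, s.compat⟩ ⟨⟨⟨p.V, p.ρ, p.unit⟩, hp⟩, fun q _ => ?_⟩
  obtain ⟨p, hp⟩ := h2 q
  exact ⟨⟨p.V, p.ρ, p.unit⟩, hp⟩

lemma sectioned_sub {A B : ℤ} (hA : A ≠ 0) (hB : B ≠ 0) (hAB : A ≠ B) :
    Sectioned A B ⊆ ELSCovered A B := by
  rintro b ⟨h1, h2⟩
  refine ⟨h1, ?_⟩
  by_contra hno
  apply h2
  intro F Ω _ _ _ _ _ _ _ U hU hF
  refine none_of fun G hG => hno ?_
  have hcl : IsAlgClosed Ω := IsAlgClosure.isAlgClosed F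
  have halg : Algebra.IsAlgebraic F Ω := IsAlgClosure.isAlgebraic
  exact Pool.Agent.Q284.SC.main3 hU hG hA hB hAB h1.1 h1.2.1 hF

lemma sectioned_le {A B : ℤ} (hA : A ≠ 0) (hB : B ≠ 0) (hAB : A ≠ B) :
    (Sectioned A B).ncard ≤ (ELSCovered A B).ncard := by
  refine Set.ncard_le_ncard (sectioned_sub hA hB hAB) (Set.Finite.subset
    (Pool.Agent.TH841.NO.sq_finite (a := -(A + B)) (mul_ne_zero hA hB)) ?_)
  exact fun b hb => hb.1

open Classical in
/-- **Theorem.** (1) If `A`, `B`, `A - B` are nonzero and `b₁ ∈ Sectioned A B`, then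
`b₁ ∈ ELSCovered A B`: if some curve over `C` has a locally geometric section, then `C` has a double
covering `D_d` with points everywhere locally.
(2) The number of the curves in `Fam H` tends to infinity with `H`; each of them has an equation
`y² = x (x - A) (x - B)` as in `Roots`, and for all these equations `A`, `B`, `A - B` are nonzero and
`ELS A B` is finite.
(3) There is a constant `C` such that for all `H` and every choice `c ↦ f c` of such an equation for
each curve `c` in `Fam H`, the average over `Fam H` of the square of the number of the elements of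
`Sectioned` is at most `C`.
(4) For all `δ, ε > 0` there are `R` and `H₀` such that for `H ≥ H₀` all the curves in `Fam H` with at
most `ε #(Fam H)` exceptions satisfy for all their equations `y² = x (x - A) (x - B)`:
`#Sectioned A B ≤ R` and
`(log H) ^ ((3 / 2) log 2 - δ) ≤ #ELS A B ≤ (log H) ^ ((3 / 2) log 2 + δ)`. -/
theorem result :
    (∀ A B : ℤ, A ≠ 0 → B ≠ 0 → A ≠ B → Sectioned A B ⊆ ELSCovered A B) ∧
    Tendsto (fun H : ℕ => (Fam H).card) atTop atTop ∧
    (∀ H : ℕ, ∀ c ∈ Fam H, (∃ A B : ℤ, Roots c A B) ∧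
      ∀ A B : ℤ, Roots c A B → A ≠ 0 ∧ B ≠ 0 ∧ A ≠ B ∧ (ELS A B).Finite) ∧
    (∃ C : ℝ, ∀ (H : ℕ) (f : ℤ × ℤ → ℤ × ℤ), (∀ c ∈ Fam H, Roots c (f c).1 (f c).2) →
      ∑ c ∈ Fam H, ((Sectioned (f c).1 (f c).2).ncard : ℝ) ^ 2 ≤ C * (Fam H).card) ∧
    ∀ δ ε : ℝ, 0 < δ → 0 < ε → ∃ R H₀ : ℕ, ∀ H : ℕ, H₀ ≤ H →
      (((Fam H).filter (fun c : ℤ × ℤ => ¬ ∀ A B : ℤ, Roots c A B →
        (Sectioned A B).ncard ≤ R ∧
        (Real.log H) ^ (3 / 2 * Real.log 2 - δ) ≤ ((ELS A B).ncard : ℝ) ∧
        ((ELS A B).ncard : ℝ) ≤ (Real.log H) ^ (3 / 2 * Real.log 2 + δ))).card : ℝ) ≤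
      ε * (Fam H).card := by
  simp only [Fam_eq]
  have hne : ∀ H : ℕ, ∀ c ∈ Pool.Agent.W307.RT.Cv 2 H, ∀ A B : ℤ, Roots c A B →
      A ≠ 0 ∧ B ≠ 0 ∧ A ≠ B := fun H c hc A B hr =>
    Pool.Agent.Q8.QH.roots_ne hr (Pool.Agent.Q8.QH.mem_cv hc).1
  refine ⟨fun A B hA hB hAB => sectioned_sub hA hB hAB,
    Pool.Agent.W307.RT.tendsto_of_low Pool.Agent.W672.FK.lowf, ?_, ?_, ?_⟩
  · intro H c hc
    refine ⟨Pool.Agent.Q8.QH.roots_ex hc, fun A B hr => ?_⟩
    obtain ⟨a1, a2, a3⟩ := hne H c hc A B hr
    exact ⟨a1, a2, a3, Pool.Agent.TH841.NO.sq_finite (a := -(A + B)) (mul_ne_zero a1 a2)⟩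
  · obtain ⟨C, -, hC⟩ := Pool.Agent.Q8.QH.lf_mom
    refine ⟨C, fun H f hf => le_trans (sum_le_sum fun c hc => ?_) (hC H f hf)⟩
    obtain ⟨a1, a2, a3⟩ := hne H c hc _ _ (hf c hc)
    have h1 : ((Sectioned (f c).1 (f c).2).ncard : ℝ) ≤ ((ELSCovered (f c).1 (f c).2).ncard : ℝ) :=
      Nat.cast_le.2 (sectioned_le a1 a2 a3)
    exact pow_le_pow_left₀ (Nat.cast_nonneg _) h1 2
  · intro δ ε hδ hε
    obtain ⟨R, H₀, h⟩ := Pool.Agent.Q8.QH.final δ ε hδ hε
    refine ⟨R, H₀, fun H hH => le_trans (Nat.cast_le.2 (card_le_card fun c hc => ?_)) (h H hH)⟩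
    rw [mem_filter] at hc ⊢
    refine ⟨hc.1, fun hall => hc.2 fun A B hr => ?_⟩
    obtain ⟨a1, a2, a3⟩ := hne H c hc.1 A B hr
    obtain ⟨k1, k2, k3⟩ := hall A B hr
    exact ⟨(sectioned_le a1 a2 a3).trans k1, k2, k3⟩

end Pool.Agent.Results.MP_896029_ag.SectionsByHeight
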