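import Pool.Agent.Results.MP_896029_ag.LiftableSectionsOfTwists
import Pool.Agent.Q319.WN.Weak2

/-!
# Liftable sections of ALL quadratic twists near the multiples and the dilates of almost every real number

Let `N ≥ 6` be even and let `e_1, …, e_N` be different integers which satisfy the condition `CrossRatio`, such that for every
`i` four of the other points give an elliptic curve of rank zero (`FourPoints`). For squarefree `d` let `C_d` be the curve
`d y² = ∏ (x - e_i)`, of genus `(N - 2) / 2 ≥ 2`. The statement `LiftableSectionsAreValuative e d` (every section of
`π₁(U) → G_ℚ`, `U` the curve `C_d` or a curve with a nonconstant map to `C_d`, which lifts to a section of the absolute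
Galois group of the function field, geometric over the completions at the finite places, arises from a valuation with
residue field `ℚ`) holds for ALL squarefree `d` with `||d| - n y| ≤ w`, for almost all real numbers `y` of size
`X ^ (1 - θ)` and all `n ≤ X ^ θ` with at most `C w X ^ θ / (log X) ^ (1/5)` exceptions. If `∑ w_n / (log v_n) ^ (1/5)`
converges then for almost every real `α > 0` and all large `n` it holds for ALL squarefree `d` with `||d| - α v_n| ≤ w_n`.

From Mathlib: `Squarefree`; `volume`: the Lebesgue measure; `∀ᵐ`: for almost all real numbers; `∀ᶠ k in atTop`: for all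
large `k`. The bound for the number of exceptional twists is from the starting file `LiftableSectionsOfTwists`, with the
definitions; the count of the elements of arbitrary sets of integers in intervals at multiples of real numbers is from the
starting files, too (`Pool.Agent.H438R2.DL`). `ScarceAtMultiples` and `ScarceAtDilates` are defined in
`Pool.Agent.Q319.WN.Weak`.
-/

set_option autoImplicit false

namespace Pool.Agent.Results.MP_896029_ag.TwistsAtRealMultiples

open Pool.Agent.Q319.WN Pool.Agent.Results.MP_896029_ag.LiftableSectionsOfTwists

/-- Let the `N ≥ 6` branch points `e_i`, `N` even, be different and satisfy `CrossRatio` and `FourPoints`.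
1. (multiples) For `0 < θ < 1` there are `c > 0` and `C` such that for all large `X`, `1 ≤ w ≤ X ^ c` and all real `y` with
   `X ^ (1 - θ) ≤ y ≤ 2 X ^ (1 - θ)` outside a set of measure at most `X ^ (1 - θ - c)`: for all `n ≤ X ^ θ` with at most
   `C w X ^ θ / (log X) ^ (1/5)` exceptions `LiftableSectionsAreValuative e d` holds for ALL squarefree `d` with
   `||d| - n y| ≤ w`.
2. (dilates) For all `v n ≥ 3` and `0 ≤ w n ≤ v n` for which `∑ w n / (log (v n)) ^ (1/5)` converges and almost every real
   `α > 0`: for all large `n` it holds for ALL squarefree `d` with `||d| - α v n| ≤ w n`. -/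
theorem result (K : Type) [Fintype K] (e : K → ℤ) (he : Function.Injective e)
    (hev : Even (Fintype.card K)) (hK : 6 ≤ Fintype.card K) (hCR : CrossRatio e) (hE : FourPoints e) :
    ScarceAtMultiples (1 / 5) (fun d => Squarefree d ∧ ¬ LiftableSectionsAreValuative e d) ∧
    ScarceAtDilates (1 / 5) (fun d => Squarefree d ∧ ¬ LiftableSectionsAreValuative e d) := by
  obtain ⟨C, hC⟩ := LiftableSectionsOfTwists.result K e he hev hK hCR hE
  exact scarce_both (by norm_num) (C := C) fun X hX => hC X (by omega)

end Pool.Agent.Results.MP_896029_ag.TwistsAtRealMultiples
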