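import Pool.Agent.Results.MP_896029_ag.SectionsNearBranchPoint
import Pool.Agent.Q319.WN.Weak3

/-!
# Sections near a branch point, for ALL quadratic twists near the multiples and the dilates of almost every real number

Let `f_k ∈ ℤ[x]` be polynomials irreducible over `ℚ`, pairwise not associated, of even total degree, at least four of them of
odd degree and at least one of them linear, which satisfy the condition `General`. For squarefree `d` let `C_d` be the curve
`d y² = ∏ f_k(x)`. `OtherSection f d` says that some section of the fundamental group of `C_d`, or of an open subcurve, or
of a curve with a nonconstant map to `C_d`, does not have modulo 2 the type of the zero of a linear factor. There is `δ > 0`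
such that NO squarefree `d` with `||d| - n y| ≤ w` has this property, for almost all real numbers `y` of size
`X ^ (1 - θ)` and all `n ≤ X ^ θ` with at most `C w X ^ θ / (log X) ^ δ` exceptions. If `∑ w_n / (log v_n) ^ δ` converges
then for almost every real `α > 0` and all large `n` NO squarefree `d` with `||d| - α v_n| ≤ w_n` has this property.

From Mathlib: `Squarefree`; `volume`: the Lebesgue measure. The bound for the number of the exceptional twists is from the
starting file `SectionsNearBranchPoint`, with the definitions; the count of the elements of arbitrary sets of integers in
intervals at multiples of real numbers is from the starting files, too (`Pool.Agent.H438R2.DL`). `ScarceAtMultiples` and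
`ScarceAtDilates` are defined in `Pool.Agent.Q319.WN.Weak`.
-/

set_option autoImplicit false

universe v w

namespace Pool.Agent.Results.MP_896029_ag.TwistsNearBranchPoint

open Polynomial Pool.Agent.Q319.WN Pool.Agent.Results.MP_896029_ag.SectionsNearBranchPoint

/-- Let `f k` be irreducible factors as in `Factors`, at least one of them linear, which satisfy `General`. There is `δ > 0`
such that the property of `d`, to be squarefree and to have a section of another type than that of the zeros of the linear
factors (`OtherSection`), is scarce at the multiples and at the dilates of almost every real number. -/
theorem result (K : Type) [Fintype K] [DecidableEq K] (f : K → ℤ[X]) (hF : Factors f)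
    (hG : General f) (hL : (Ln f).Nonempty) :
    ∃ δ : ℝ, 0 < δ ∧ ScarceAtMultiples δ (fun d => Squarefree d ∧ OtherSection.{v, w} f d) ∧
      ScarceAtDilates δ (fun d => Squarefree d ∧ OtherSection.{v, w} f d) := by
  obtain ⟨δ, hδ, C, hC⟩ := SectionsNearBranchPoint.result.{v, w} K f hF hG hL
  exact ⟨δ, hδ, scarce_both hδ (C := C) fun X hX => hC X hX⟩

end Pool.Agent.Results.MP_896029_ag.TwistsNearBranchPoint
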